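import Pool.Agent.Q129.SubMain

/-!
# The smallest graph with subchromatic number five has fifteen vertices

Every graph on at most fourteen vertices has a partition into four classes, each inducing a
disjoint union of complete graphs, and the complete multipartite graph with parts of sizes
`1, 2, 3, 4, 5` has no such partition. Hence `n_s(5) = 15`.
-/

set_option autoImplicit false

namespace Pool.Agent.Results.MP_7a0182_co.Fifteen

/-- `G` has a subcolouring with `k` (possibly empty) classes: a partition of the vertices, given
by `c`, such that no class contains an induced path on three vertices, i.e. every class induces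
a disjoint union of complete graphs. -/
def Subcolorable {V : Type} (G : SimpleGraph V) (k : ℕ) : Prop :=
  ∃ c : V → Fin k, ∀ x y z : V, c x = c y → c y = c z → G.Adj x y → G.Adj y z → x ≠ z →
    G.Adj x z

/-- The subchromatic number. -/
noncomputable def chiS {V : Type} (G : SimpleGraph V) : ℕ := sInf {k : ℕ | Subcolorable G k}

theorem Subcolorable.mono {V : Type} {G : SimpleGraph V} {k m : ℕ} (h : Subcolorable G k)
    (hkm : k ≤ m) : Subcolorable G m := by
  obtain ⟨c, hc⟩ := h
  refine ⟨fun x => Fin.castLE hkm (c x), ?_⟩
  intro x y z h1 h2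
  exact hc x y z (Fin.castLE_injective hkm h1) (Fin.castLE_injective hkm h2)

open Pool.Agent.Q129.SubV Pool.Agent.Q129.SubMain in
theorem sub14 {n : ℕ} (hn : n ≤ 14) (G : SimpleGraph (Fin n)) : Subcolorable G 4 := by
  classical
  obtain ⟨Ms, h1, h2, h3⟩ := main14 (G.map (Fin.castLEEmb hn))
  have h4 : ∀ x : Fin n, ∃ i : Fin 4, Fin.castLEEmb hn x ∈ Ms.getD i ∅ := by
    intro x
    obtain ⟨M, hM, hxM⟩ := h3 (Fin.castLEEmb hn x) (Finset.mem_coe.2 (Finset.mem_univ _))
    obtain ⟨i, hi, rfl⟩ := List.mem_iff_getElem.1 hM
    refine ⟨⟨i, by omega⟩, ?_⟩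
    rw [List.getD_eq_getElem _ _ hi]
    exact hxM
  choose c hc using h4
  refine ⟨c, ?_⟩
  intro x y z hxy hyz h5 h6 h7
  have hcl : Cl (G.map (Fin.castLEEmb hn)) (Ms.getD (c x) ∅) := by
    rw [List.getD_eq_getElem _ _ (by rw [h1]; exact (c x).2)]
    exact h2 _ (List.getElem_mem _)
  have hx := hc x
  have hy := hc y
  have hz := hc z
  rw [← hyz, ← hxy] at hz
  rw [← hxy] at hy
  have h8 := hcl _ hx _ hy _ hz ((SimpleGraph.map_adj_apply).2 h5)
    ((SimpleGraph.map_adj_apply).2 h6) (fun h => h7 ((Fin.castLEEmb hn).injective h))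
  exact (SimpleGraph.map_adj_apply).1 h8

/-- The part of a vertex of the complete multipartite graph with parts of sizes
`1, 2, 3, 4, 5`. -/
def part (x : Fin 15) : ℕ :=
  if x.1 < 1 then 0 else if x.1 < 3 then 1 else if x.1 < 6 then 2 else if x.1 < 10 then 3 else 4

/-- The complete multipartite graph with parts of sizes `1, 2, 3, 4, 5`. -/
def K12345 : SimpleGraph (Fin 15) where
  Adj x y := part x ≠ part y
  symm := ⟨fun _ _ h => h.symm⟩
  loopless := ⟨fun _ h => h rfl⟩

theorem part_lt (x : Fin 15) : part x < 5 := by
  unfold part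
  split_ifs <;> omega

theorem sub15 : Subcolorable K12345 5 := by
  refine ⟨fun x => ⟨part x, part_lt x⟩, ?_⟩
  intro x y z h1 _ h3
  exact absurd (Fin.mk.inj h1) h3

/-- The vertices of a part. -/
def ps (p : ℕ) : Finset (Fin 15) := Finset.univ.filter fun x => part x = p

theorem ps_card : ∀ p < 5, (ps p).card = p + 1 := by decide +kernel

theorem not_sub15 : ¬ Subcolorable K12345 4 := by
  classical
  rintro ⟨c, hc⟩
  -- two vertices of one part with one colour
  have mono : ∀ x z : Fin 15, x ≠ z → part x = part z → c x = c z → ∀ y, c y = c x →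
      part y = part x := by
    intro x z hxz hp hcxz y hy
    by_contra hne
    have h := hc x y z hy.symm (hy.trans hcxz) (fun h => hne h.symm) (fun h => hne (h.trans hp.symm))
      hxz
    exact h hp
  have step : ∀ (p : ℕ) (F : Finset (Fin 4)), p < 5 → 4 ≤ F.card + p →
      (∀ x, part x = p → c x ∉ F) → ∃ k : Fin 4, k ∉ F ∧ ∀ y, c y = k → part y = p := by
    intro p F hp hF hdis
    have h1 : (Finset.univ \ F).card < (ps p).card := by
      rw [Finset.card_sdiff_of_subset (Finset.subset_univ _), ps_card p hp, Finset.card_fin]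
      omega
    obtain ⟨x, hx, z, hz, hxz, hcxz⟩ := Finset.exists_ne_map_eq_of_card_lt_of_maps_to h1
      (f := c) (fun x hx => by
        rw [Finset.mem_coe, Finset.mem_sdiff]
        exact ⟨Finset.mem_univ _, hdis x (by simpa [ps] using hx)⟩)
    have hpx : part x = p := by simpa [ps] using hx
    have hpz : part z = p := by simpa [ps] using hz
    refine ⟨c x, hdis x hpx, ?_⟩
    intro y hy
    rw [mono x z hxz (hpx.trans hpz.symm) hcxz y hy, hpx]
  obtain ⟨k4, -, h4⟩ := step 4 ∅ (by norm_num) (by simp) (by simp)
  obtain ⟨k3, h3', h3⟩ := step 3 {k4} (by norm_num) (by simp) (by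
    intro x hx hmem
    rw [Finset.mem_singleton] at hmem
    have := h4 x hmem
    omega)
  obtain ⟨k2, h2', h2⟩ := step 2 {k3, k4} (by norm_num) (by
      rw [Finset.card_pair (by simpa using h3')]) (by
    intro x hx hmem
    simp only [Finset.mem_insert, Finset.mem_singleton] at hmem
    rcases hmem with h | h
    · have := h3 x h
      omega
    · have := h4 x h
      omega)
  have h2'' := h2'
  simp only [Finset.mem_insert, Finset.mem_singleton, not_or] at h2''
  obtain ⟨k1, h1', h1⟩ := step 1 {k2, k3, k4} (by norm_num) (by
      rw [Finset.card_insert_of_notMem h2', Finset.card_pair (by simpa using h3')]) (by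
    intro x hx hmem
    simp only [Finset.mem_insert, Finset.mem_singleton] at hmem
    rcases hmem with h | h | h
    · have := h2 x h
      omega
    · have := h3 x h
      omega
    · have := h4 x h
      omega)
  obtain ⟨k0, h0', h0⟩ := step 0 {k1, k2, k3, k4} (by norm_num) (by
      rw [Finset.card_insert_of_notMem h1', Finset.card_insert_of_notMem h2',
        Finset.card_pair (by simpa using h3')]) (by
    intro x hx hmem
    simp only [Finset.mem_insert, Finset.mem_singleton] at hmem
    rcases hmem with h | h | h | h
    · have := h1 x h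
      omega
    · have := h2 x h
      omega
    · have := h3 x h
      omega
    · have := h4 x h
      omega)
  have hcard : ({k0, k1, k2, k3, k4} : Finset (Fin 4)).card ≤ 4 := by
    have := Finset.card_le_univ ({k0, k1, k2, k3, k4} : Finset (Fin 4))
    simpa using this
  rw [Finset.card_insert_of_notMem h0', Finset.card_insert_of_notMem h1',
    Finset.card_insert_of_notMem h2', Finset.card_pair (by simpa using h3')] at hcard
  omega

theorem chiS_K12345 : chiS K12345 = 5 := by
  apply le_antisymm
  · exact Nat.sInf_le sub15
  · refine le_csInf ⟨5, sub15⟩ ?_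
    intro k hk
    by_contra hlt
    exact not_sub15 (Subcolorable.mono hk (by omega))

/-- The smallest order of a graph with subchromatic number `5` is `15`. -/
theorem result : IsLeast {n : ℕ | ∃ G : SimpleGraph (Fin n), chiS G = 5} 15 := by
  constructor
  · exact ⟨K12345, chiS_K12345⟩
  · rintro n ⟨G, hG⟩
    by_contra hlt
    have h1 : chiS G ≤ 4 := Nat.sInf_le (sub14 (by omega) G)
    omega

end Pool.Agent.Results.MP_7a0182_co.Fifteen
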